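import Pool.Agent.Helper76.CQ.Defs

/-!
# Project CQ, piece 8c: exact computations with the matrix `Bz`
-/

namespace Pool.Agent.Helper32.CQ

open Pool.Agent.Helper76.CY Pool.Agent.Helper76.CQ

/-- The matrix with given rows. -/
def ML (L : List (List ℤ)) : Matrix Idx Idx ℤ := fun p q =>
  (L.getD (7 * p.1.val + p.2.val) []).getD (7 * q.1.val + q.2.val) 0

/-- The power `1` of the matrix. -/
def bp1 : List (List ℤ) :=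
  [[0, 0, 0, 0, 0, 0, 0, 0, 1, 0, 0, 0, 0, 0, 0, 0, 0, 0, 0, 0, 0],
    [0, 0, 0, 0, 0, 0, 0, 0, 0, 1, 0, 0, 0, 0, 0, 0, 0, 0, 0, 0, 0],
    [0, 0, 0, 0, 0, 0, 0, 0, 0, 0, 1, 0, 0, 0, 0, 0, 0, 0, 0, 0, 0],
    [0, 0, 0, 0, 0, 0, 0, 0, 0, 0, 0, 1, 0, 0, 0, 0, 0, 0, 0, 0, 0],
    [0, 0, 0, 0, 0, 0, 0, 0, 0, 0, 0, 0, 1, 0, 0, 0, 0, 0, 0, 0, 0],
    [0, 0, 0, 0, 0, 0, 0, 0, 0, 0, 0, 0, 0, 1, 0, 0, 0, 0, 0, 0, 0],
    [-2, 0, -3, 0, 1, 1, -1, 2, 0, -1, 4, 4, 7, -3, 2, 0, 3, 0, -1, -1, 1],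
    [0, 0, 0, 0, 0, 0, 0, 0, 0, 0, 0, 0, 0, 0, 0, 1, 0, 0, 0, 0, 0],
    [0, 0, 0, 0, 0, 0, 0, 0, 0, 0, 0, 0, 0, 0, 0, 0, 1, 0, 0, 0, 0],
    [0, 0, 0, 0, 0, 0, 0, 0, 0, 0, 0, 0, 0, 0, 0, 0, 0, 1, 0, 0, 0],
    [0, 0, 0, 0, 0, 0, 0, 0, 0, 0, 0, 0, 0, 0, 0, 0, 0, 0, 1, 0, 0],
    [0, 0, 0, 0, 0, 0, 0, 0, 0, 0, 0, 0, 0, 0, 0, 0, 0, 0, 0, 1, 0],
    [0, 0, 0, 0, 0, 0, 0, 0, 0, 0, 0, 0, 0, 0, 0, 0, 0, 0, 0, 0, 1],
    [-2, 0, -2, -1, 0, -1, 0, 0, 0, -1, 1, 0, 2, -1, 2, 0, 3, 0, 1, -1, 1],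
    [4, 0, 4, 2, 1, 2, 0, 0, 0, 1, -1, 0, -2, 1, -2, 0, -3, 0, 0, 1, -1],
    [0, 0, 1, -1, -1, -2, 1, -2, 0, -2, -1, -1, -1, 0, 0, 0, 0, 0, 0, 0, 0],
    [0, 0, 0, 0, 0, 0, 0, 0, 0, 0, 0, -1, 0, 0, 0, 0, 1, -1, -1, -2, 1],
    [2, 0, 2, 1, 0, 1, 0, 0, 0, 1, -1, 0, -2, 1, -2, 0, -3, 0, 0, 1, -1],
    [0, 0, 1, -1, -1, -2, 1, -2, 0, -1, -2, -2, -3, 1, 0, 0, 0, 0, 0, 0, 0],
    [0, 0, 0, 0, 0, 0, 0, 0, 0, 0, 0, -1, 0, 0, 0, 0, 1, -1, -2, -2, 1],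
    [2, 0, 2, 1, 0, 1, 0, 0, 0, 1, -1, 0, -2, 1, -2, 0, -3, 0, 0, 1, -1]]

/-- The power `2` of the matrix. -/
def bp2 : List (List ℤ) :=
  [[0, 0, 0, 0, 0, 0, 0, 0, 0, 0, 0, 0, 0, 0, 0, 0, 1, 0, 0, 0, 0],
    [0, 0, 0, 0, 0, 0, 0, 0, 0, 0, 0, 0, 0, 0, 0, 0, 0, 1, 0, 0, 0],
    [0, 0, 0, 0, 0, 0, 0, 0, 0, 0, 0, 0, 0, 0, 0, 0, 0, 0, 1, 0, 0],
    [0, 0, 0, 0, 0, 0, 0, 0, 0, 0, 0, 0, 0, 0, 0, 0, 0, 0, 0, 1, 0],
    [0, 0, 0, 0, 0, 0, 0, 0, 0, 0, 0, 0, 0, 0, 0, 0, 0, 0, 0, 0, 1],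
    [-2, 0, -2, -1, 0, -1, 0, 0, 0, -1, 1, 0, 2, -1, 2, 0, 3, 0, 1, -1, 1],
    [18, 0, 18, 9, 2, 9, 0, 0, -2, 8, -11, -4, -15, 9, -14, 2, -19, -3, 1, 7, 2],
    [0, 0, 1, -1, -1, -2, 1, -2, 0, -2, -1, -1, -1, 0, 0, 0, 0, 0, 0, 0, 0],
    [0, 0, 0, 0, 0, 0, 0, 0, 0, 0, 0, -1, 0, 0, 0, 0, 1, -1, -1, -2, 1],
    [2, 0, 2, 1, 0, 1, 0, 0, 0, 1, -1, 0, -2, 1, -2, 0, -3, 0, 0, 1, -1],
    [0, 0, 1, -1, -1, -2, 1, -2, 0, -1, -2, -2, -3, 1, 0, 0, 0, 0, 0, 0, 0],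
    [0, 0, 0, 0, 0, 0, 0, 0, 0, 0, 0, -1, 0, 0, 0, 0, 1, -1, -2, -2, 1],
    [2, 0, 2, 1, 0, 1, 0, 0, 0, 1, -1, 0, -2, 1, -2, 0, -3, 0, 0, 1, -1],
    [12, 0, 13, 5, 1, 4, 1, -2, -2, 3, -8, -5, -11, 4, -8, 0, -10, -3, -1, 0, 0],
    [-12, 0, -12, -6, -2, -6, 0, 0, 4, -4, 8, 4, 9, -2, 8, 0, 10, 3, 1, 0, 0],
    [-2, 0, -3, 0, 1, 1, -1, 2, 0, -1, 5, 3, 6, -5, 2, -2, 3, -2, -2, -2, 0],
    [0, 0, -1, 1, 1, 2, -1, 2, 0, 1, 2, 3, 3, -1, 0, 0, -1, 1, 3, 1, -1],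
    [-12, 0, -12, -6, -2, -6, 0, 0, 2, -4, 6, 3, 8, -3, 8, 0, 10, 3, 1, 0, 0],
    [-4, 0, -5, -1, 1, 0, -1, 2, 0, -2, 6, 3, 8, -6, 4, -2, 6, -1, -2, -4, -1],
    [0, 0, -2, 2, 2, 4, -2, 4, 0, 2, 4, 5, 6, -2, 0, 0, -1, 1, 3, 1, -1],
    [-12, 0, -12, -6, -2, -6, 0, 0, 2, -4, 6, 3, 8, -3, 8, 0, 10, 3, 1, 0, 0]]

/-- The power `3` of the matrix. -/
def bp3 : List (List ℤ) :=
  [[0, 0, 0, 0, 0, 0, 0, 0, 0, 0, 0, -1, 0, 0, 0, 0, 1, -1, -1, -2, 1],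
    [2, 0, 2, 1, 0, 1, 0, 0, 0, 1, -1, 0, -2, 1, -2, 0, -3, 0, 0, 1, -1],
    [0, 0, 1, -1, -1, -2, 1, -2, 0, -1, -2, -2, -3, 1, 0, 0, 0, 0, 0, 0, 0],
    [0, 0, 0, 0, 0, 0, 0, 0, 0, 0, 0, -1, 0, 0, 0, 0, 1, -1, -2, -2, 1],
    [2, 0, 2, 1, 0, 1, 0, 0, 0, 1, -1, 0, -2, 1, -2, 0, -3, 0, 0, 1, -1],
    [12, 0, 13, 5, 1, 4, 1, -2, -2, 3, -8, -5, -11, 4, -8, 0, -10, -3, -1, 0, 0],
    [-76, 0, -73, -41, -17, -44, 3, -6, 18, -29, 38, 17, 45, -14, 48, 0, 58, 20, 3, -4, -3],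
    [-2, 0, -3, 0, 1, 1, -1, 2, 0, -1, 5, 3, 6, -5, 2, -2, 3, -2, -2, -2, 0],
    [0, 0, -1, 1, 1, 2, -1, 2, 0, 1, 2, 3, 3, -1, 0, 0, -1, 1, 3, 1, -1],
    [-12, 0, -12, -6, -2, -6, 0, 0, 2, -4, 6, 3, 8, -3, 8, 0, 10, 3, 1, 0, 0],
    [-4, 0, -5, -1, 1, 0, -1, 2, 0, -2, 6, 3, 8, -6, 4, -2, 6, -1, -2, -4, -1],
    [0, 0, -2, 2, 2, 4, -2, 4, 0, 2, 4, 5, 6, -2, 0, 0, -1, 1, 3, 1, -1],
    [-12, 0, -12, -6, -2, -6, 0, 0, 2, -4, 6, 3, 8, -3, 8, 0, 10, 3, 1, 0, 0],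
    [-48, 0, -50, -22, -6, -20, -2, 4, 12, -15, 34, 21, 41, -15, 32, -2, 36, 13, 5, -1, -5],
    [42, 0, 43, 20, 7, 19, 1, -2, -12, 12, -27, -18, -31, 8, -26, 0, -25, -14, -4, -3, 6],
    [16, 0, 13, 11, 5, 14, -3, 6, -2, 12, -6, 1, -8, 7, -12, 2, -17, -2, 2, 7, 1],
    [4, 0, 8, -2, -4, -6, 4, -8, 0, -1, -12, -9, -17, 9, -4, 2, -6, 1, 1, 5, 1],
    [44, 0, 45, 21, 7, 20, 1, -2, -12, 13, -28, -18, -33, 9, -28, 0, -30, -14, -7, -3, 4],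
    [26, 0, 23, 16, 7, 19, -3, 6, -4, 15, -11, -1, -14, 9, -18, 2, -25, -4, 3, 8, 1],
    [8, 0, 13, -1, -5, -6, 5, -10, 0, 1, -18, -12, -25, 15, -8, 4, -12, 2, 3, 9, 2],
    [44, 0, 45, 21, 7, 20, 1, -2, -12, 13, -28, -18, -33, 9, -28, 0, -30, -14, -7, -3, 4]]

/-- The power `4` of the matrix. -/
def bp4 : List (List ℤ) :=
  [[0, 0, -1, 1, 1, 2, -1, 2, 0, 1, 2, 3, 3, -1, 0, 0, -1, 1, 3, 1, -1],
    [-12, 0, -12, -6, -2, -6, 0, 0, 2, -4, 6, 3, 8, -3, 8, 0, 10, 3, 1, 0, 0],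
    [-4, 0, -5, -1, 1, 0, -1, 2, 0, -2, 6, 3, 8, -6, 4, -2, 6, -1, -2, -4, -1],
    [0, 0, -2, 2, 2, 4, -2, 4, 0, 2, 4, 5, 6, -2, 0, 0, -1, 1, 3, 1, -1],
    [-12, 0, -12, -6, -2, -6, 0, 0, 2, -4, 6, 3, 8, -3, 8, 0, 10, 3, 1, 0, 0],
    [-48, 0, -50, -22, -6, -20, -2, 4, 12, -15, 34, 21, 41, -15, 32, -2, 36, 13, 5, -1, -5],
    [248, 0, 248, 124, 48, 124, 0, 0, -76, 73, -146, -89, -163, 29, -152, -6, -156, -83, -29, -15,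
      23],
    [16, 0, 13, 11, 5, 14, -3, 6, -2, 12, -6, 1, -8, 7, -12, 2, -17, -2, 2, 7, 1],
    [4, 0, 8, -2, -4, -6, 4, -8, 0, -1, -12, -9, -17, 9, -4, 2, -6, 1, 1, 5, 1],
    [44, 0, 45, 21, 7, 20, 1, -2, -12, 13, -28, -18, -33, 9, -28, 0, -30, -14, -7, -3, 4],
    [26, 0, 23, 16, 7, 19, -3, 6, -4, 15, -11, -1, -14, 9, -18, 2, -25, -4, 3, 8, 1],
    [8, 0, 13, -1, -5, -6, 5, -10, 0, 1, -18, -12, -25, 15, -8, 4, -12, 2, 3, 9, 2],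
    [44, 0, 45, 21, 7, 20, 1, -2, -12, 13, -28, -18, -33, 9, -28, 0, -30, -14, -7, -3, 4],
    [178, 0, 183, 84, 27, 79, 5, -10, -48, 56, -121, -73, -143, 46, -114, 4, -124, -50, -13, 8, 19],
    [-138, 0, -143, -64, -21, -59, -5, 10, 42, -39, 97, 60, 110, -30, 86, -2, 89, 40, 11, -5, -16],
    [-58, 0, -51, -36, -19, -43, 7, -14, 16, -23, 15, 3, 16, 5, 34, 6, 39, 22, 7, 4, -1],
    [-38, 0, -39, -18, -3, -17, -1, 2, 4, -20, 31, 11, 41, -28, 30, -8, 44, 0, -11, -22, -3],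
    [-152, 0, -160, -68, -20, -60, -8, 16, 44, -41, 110, 72, 129, -37, 96, -2, 99, 46, 16, 0, -18],
    [-90, 0, -82, -53, -26, -61, 8, -16, 26, -34, 33, 13, 35, 1, 54, 6, 60, 32, 10, 6, -4],
    [-64, 0, -62, -34, -10, -36, 2, -4, 8, -35, 42, 12, 55, -37, 48, -10, 69, 4, -14, -30, -4],
    [-152, 0, -160, -68, -20, -60, -8, 16, 44, -41, 110, 72, 129, -37, 96, -2, 99, 46, 16, 0, -18]]

/-- The power `5` of the matrix. -/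
def bp5 : List (List ℤ) :=
  [[4, 0, 8, -2, -4, -6, 4, -8, 0, -1, -12, -9, -17, 9, -4, 2, -6, 1, 1, 5, 1],
    [44, 0, 45, 21, 7, 20, 1, -2, -12, 13, -28, -18, -33, 9, -28, 0, -30, -14, -7, -3, 4],
    [26, 0, 23, 16, 7, 19, -3, 6, -4, 15, -11, -1, -14, 9, -18, 2, -25, -4, 3, 8, 1],
    [8, 0, 13, -1, -5, -6, 5, -10, 0, 1, -18, -12, -25, 15, -8, 4, -12, 2, 3, 9, 2],
    [44, 0, 45, 21, 7, 20, 1, -2, -12, 13, -28, -18, -33, 9, -28, 0, -30, -14, -7, -3, 4],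
    [178, 0, 183, 84, 27, 79, 5, -10, -48, 56, -121, -73, -143, 46, -114, 4, -124, -50, -13, 8, 19],
    [-786, 0, -821, -358, -117, -323, -35, 70, 248, -200, 553, 359, 623, -146, 482, 0, 476, 244,
      69, 12, -93],
    [-58, 0, -51, -36, -19, -43, 7, -14, 16, -23, 15, 3, 16, 5, 34, 6, 39, 22, 7, 4, -1],
    [-38, 0, -39, -18, -3, -17, -1, 2, 4, -20, 31, 11, 41, -28, 30, -8, 44, 0, -11, -22, -3],
    [-152, 0, -160, -68, -20, -60, -8, 16, 44, -41, 110, 72, 129, -37, 96, -2, 99, 46, 16, 0, -18],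
    [-90, 0, -82, -53, -26, -61, 8, -16, 26, -34, 33, 13, 35, 1, 54, 6, 60, 32, 10, 6, -4],
    [-64, 0, -62, -34, -10, -36, 2, -4, 8, -35, 42, 12, 55, -37, 48, -10, 69, 4, -14, -30, -4],
    [-152, 0, -160, -68, -20, -60, -8, 16, 44, -41, 110, 72, 129, -37, 96, -2, 99, 46, 16, 0, -18],
    [-620, 0, -634, -296, -100, -282, -14, 28, 178, -191, 416, 242, 479, -140, 392, -10, 424, 172,
      28, -37, -63],
    [462, 0, 476, 217, 72, 203, 14, -28, -138, 138, -323, -188, -367, 107, -290, 10, -309, -123,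
      -7, 37, 49],
    [154, 0, 160, 71, 28, 65, 6, -12, -58, 24, -93, -71, -97, -7, -86, -14, -70, -66, -34, -40, 16],
    [172, 0, 154, 104, 48, 122, -18, 36, -38, 83, -68, -14, -79, 30, -112, 2, -142, -42, 4, 23, 7],
    [530, 0, 552, 243, 74, 221, 22, -44, -152, 157, -383, -229, -444, 141, -338, 16, -364, -140,
      -18, 43, 59],
    [254, 0, 262, 119, 46, 111, 8, -16, -90, 51, -157, -113, -168, 6, -146, -16, -127, -100, -46,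
      -46, 28],
    [262, 0, 236, 157, 74, 183, -26, 52, -64, 117, -101, -27, -114, 29, -166, -4, -202, -74, -6,
      17, 11],
    [530, 0, 552, 243, 74, 221, 22, -44, -152, 157, -383, -229, -444, 141, -338, 16, -364, -140,
      -18, 43, 59]]

/-- The power `6` of the matrix. -/
def bp6 : List (List ℤ) :=
  [[-38, 0, -39, -18, -3, -17, -1, 2, 4, -20, 31, 11, 41, -28, 30, -8, 44, 0, -11, -22, -3],
    [-152, 0, -160, -68, -20, -60, -8, 16, 44, -41, 110, 72, 129, -37, 96, -2, 99, 46, 16, 0, -18],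
    [-90, 0, -82, -53, -26, -61, 8, -16, 26, -34, 33, 13, 35, 1, 54, 6, 60, 32, 10, 6, -4],
    [-64, 0, -62, -34, -10, -36, 2, -4, 8, -35, 42, 12, 55, -37, 48, -10, 69, 4, -14, -30, -4],
    [-152, 0, -160, -68, -20, -60, -8, 16, 44, -41, 110, 72, 129, -37, 96, -2, 99, 46, 16, 0, -18],
    [-620, 0, -634, -296, -100, -282, -14, 28, 178, -191, 416, 242, 479, -140, 392, -10, 424, 172,
      28, -37, -63],
    [2592, 0, 2696, 1192, 378, 1088, 104, -208, -786, 745, -1878, -1124, -2127, 630, -1628, 70,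
      -1706, -688, -58, 197, 297],
    [154, 0, 160, 71, 28, 65, 6, -12, -58, 24, -93, -71, -97, -7, -86, -14, -70, -66, -34, -40, 16],
    [172, 0, 154, 104, 48, 122, -18, 36, -38, 83, -68, -14, -79, 30, -112, 2, -142, -42, 4, 23, 7],
    [530, 0, 552, 243, 74, 221, 22, -44, -152, 157, -383, -229, -444, 141, -338, 16, -364, -140,
      -18, 43, 59],
    [254, 0, 262, 119, 46, 111, 8, -16, -90, 51, -157, -113, -168, 6, -146, -16, -127, -100, -46,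
      -46, 28],
    [262, 0, 236, 157, 74, 183, -26, 52, -64, 117, -101, -27, -114, 29, -166, -4, -202, -74, -6,
      17, 11],
    [530, 0, 552, 243, 74, 221, 22, -44, -152, 157, -383, -229, -444, 141, -338, 16, -364, -140,
      -18, 43, 59],
    [2094, 0, 2126, 1015, 360, 983, 32, -64, -620, 647, -1377, -785, -1554, 429, -1310, 28, -1400,
      -578, -60, 123, 211],
    [-1550, 0, -1561, -764, -279, -753, -11, 22, 462, -498, 1007, 549, 1123, -317, 970, -28, 1045,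
      410, 5, -129, -154],
    [-442, 0, -496, -167, -32, -113, -54, 108, 154, -73, 395, 287, 444, -116, 270, -12, 237, 134,
      44, 14, -72],
    [-542, 0, -518, -295, -136, -319, 24, -48, 172, -167, 249, 141, 262, 3, 318, 36, 320, 202, 76,
      65, -39],
    [-1840, 0, -1864, -896, -314, -872, -24, 48, 530, -596, 1220, 672, 1386, -423, 1164, -44, 1273,
      478, 14, -169, -183],
    [-756, 0, -826, -308, -76, -238, -70, 140, 254, -154, 626, 432, 704, -183, 464, -16, 433, 224,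
      60, 1, -109],
    [-796, 0, -780, -414, -182, -430, 16, -32, 262, -218, 406, 254, 430, -3, 464, 52, 447, 302,
      122, 111, -67],
    [-1840, 0, -1864, -896, -314, -872, -24, 48, 530, -596, 1220, 672, 1386, -423, 1164, -44, 1273,
      478, 14, -169, -183]]

/-- The power `7` of the matrix. -/
def bp7 : List (List ℤ) :=
  [[172, 0, 154, 104, 48, 122, -18, 36, -38, 83, -68, -14, -79, 30, -112, 2, -142, -42, 4, 23, 7],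
    [530, 0, 552, 243, 74, 221, 22, -44, -152, 157, -383, -229, -444, 141, -338, 16, -364, -140,
      -18, 43, 59],
    [254, 0, 262, 119, 46, 111, 8, -16, -90, 51, -157, -113, -168, 6, -146, -16, -127, -100, -46,
      -46, 28],
    [262, 0, 236, 157, 74, 183, -26, 52, -64, 117, -101, -27, -114, 29, -166, -4, -202, -74, -6,
      17, 11],
    [530, 0, 552, 243, 74, 221, 22, -44, -152, 157, -383, -229, -444, 141, -338, 16, -364, -140,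
      -18, 43, 59],
    [2094, 0, 2126, 1015, 360, 983, 32, -64, -620, 647, -1377, -785, -1554, 429, -1310, 28, -1400,
      -578, -60, 123, 211],
    [-8762, 0, -8854, -4289, -1536, -4197, -92, 184, 2592, -2835, 5807, 3163, 6508, -1931, 5506,
      -208, 5964, 2254, -40, -859, -883],
    [-442, 0, -496, -167, -32, -113, -54, 108, 154, -73, 395, 287, 444, -116, 270, -12, 237, 134,
      44, 14, -72],
    [-542, 0, -518, -295, -136, -319, 24, -48, 172, -167, 249, 141, 262, 3, 318, 36, 320, 202, 76,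
      65, -39],
    [-1840, 0, -1864, -896, -314, -872, -24, 48, 530, -596, 1220, 672, 1386, -423, 1164, -44, 1273,
      478, 14, -169, -183],
    [-756, 0, -826, -308, -76, -238, -70, 140, 254, -154, 626, 432, 704, -183, 464, -16, 433, 224,
      60, 1, -109],
    [-796, 0, -780, -414, -182, -430, 16, -32, 262, -218, 406, 254, 430, -3, 464, 52, 447, 302,
      122, 111, -67],
    [-1840, 0, -1864, -896, -314, -872, -24, 48, 530, -596, 1220, 672, 1386, -423, 1164, -44, 1273,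
      478, 14, -169, -183],
    [-6896, 0, -6960, -3384, -1246, -3320, -64, 128, 2094, -2134, 4452, 2512, 4948, -1279, 4276,
      -64, 4517, 1924, 174, -369, -693],
    [5048, 0, 5036, 2536, 982, 2548, -12, 24, -1550, 1605, -3130, -1706, -3429, 828, -3108, 22,
      -3284, -1414, -86, 271, 485],
    [1544, 0, 1630, 686, 184, 600, 86, -172, -442, 482, -1236, -710, -1426, 541, -1004, 108, -1101,
      -324, 68, 287, 193],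
    [1544, 0, 1632, 684, 230, 596, 88, -176, -542, 306, -1088, -772, -1188, 163, -908, -48, -805,
      -552, -222, -175, 193],
    [6140, 0, 6134, 3076, 1170, 3082, -6, 12, -1840, 1980, -3826, -2080, -4244, 1096, -3812, 48,
      -4084, -1700, -114, 370, 584],
    [2592, 0, 2706, 1182, 350, 1068, 114, -228, -756, 804, -1972, -1126, -2254, 794, -1664, 140,
      -1808, -588, 78, 396, 306],
    [2300, 0, 2458, 992, 306, 834, 158, -316, -796, 460, -1714, -1204, -1892, 346, -1372, -32,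
      -1238, -776, -282, -176, 302],
    [6140, 0, 6134, 3076, 1170, 3082, -6, 12, -1840, 1980, -3826, -2080, -4244, 1096, -3812, 48,
      -4084, -1700, -114, 370, 584]]

/-- The power `8` of the matrix. -/
def bp8 : List (List ℤ) :=
  [[-542, 0, -518, -295, -136, -319, 24, -48, 172, -167, 249, 141, 262, 3, 318, 36, 320, 202, 76,
      65, -39],
    [-1840, 0, -1864, -896, -314, -872, -24, 48, 530, -596, 1220, 672, 1386, -423, 1164, -44, 1273,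
      478, 14, -169, -183],
    [-756, 0, -826, -308, -76, -238, -70, 140, 254, -154, 626, 432, 704, -183, 464, -16, 433, 224,
      60, 1, -109],
    [-796, 0, -780, -414, -182, -430, 16, -32, 262, -218, 406, 254, 430, -3, 464, 52, 447, 302,
      122, 111, -67],
    [-1840, 0, -1864, -896, -314, -872, -24, 48, 530, -596, 1220, 672, 1386, -423, 1164, -44, 1273,
      478, 14, -169, -183],
    [-6896, 0, -6960, -3384, -1246, -3320, -64, 128, 2094, -2134, 4452, 2512, 4948, -1279, 4276,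
      -64, 4517, 1924, 174, -369, -693],
    [28812, 0, 28656, 14562, 5662, 14718, -156, 312, -8762, 9356, -17742, -9474, -19468, 4847,
      -17800, 184, -19003, -7940, -278, 1853, 2713],
    [1544, 0, 1630, 686, 184, 600, 86, -172, -442, 482, -1236, -710, -1426, 541, -1004, 108, -1101,
      -324, 68, 287, 193],
    [1544, 0, 1632, 684, 230, 596, 88, -176, -542, 306, -1088, -772, -1188, 163, -908, -48, -805,
      -552, -222, -175, 193],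
    [6140, 0, 6134, 3076, 1170, 3082, -6, 12, -1840, 1980, -3826, -2080, -4244, 1096, -3812, 48,
      -4084, -1700, -114, 370, 584],
    [2592, 0, 2706, 1182, 350, 1068, 114, -228, -756, 804, -1972, -1126, -2254, 794, -1664, 140,
      -1808, -588, 78, 396, 306],
    [2300, 0, 2458, 992, 306, 834, 158, -316, -796, 460, -1714, -1204, -1892, 346, -1372, -32,
      -1238, -776, -282, -176, 302],
    [6140, 0, 6134, 3076, 1170, 3082, -6, 12, -1840, 1980, -3826, -2080, -4244, 1096, -3812, 48,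
      -4084, -1700, -114, 370, 584],
    [22252, 0, 22426, 10952, 4102, 10778, 174, -348, -6896, 6804, -14286, -8072, -15724, 3832,
      -13700, 128, -14308, -6282, -542, 1066, 2246],
    [-15922, 0, -15974, -7909, -3056, -7857, -52, 104, 5048, -4811, 10003, 5651, 10864, -2367,
      9706, 24, 9996, 4618, 452, -533, -1589],
    [-5532, 0, -5442, -2856, -1094, -2946, 90, -180, 1544, -2046, 3406, 1600, 3826, -1266, 3524,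
      -172, 4030, 1296, -254, -844, -478],
    [-4852, 0, -5210, -2068, -550, -1710, -358, 716, 1544, -1200, 3906, 2508, 4420, -1320, 3036,
      -176, 3032, 1286, 142, -330, -650],
    [-19660, 0, -19720, -9770, -3752, -9710, -60, 120, 6140, -6000, 12314, 6946, 13470, -3038,
      12036, 12, 12500, 5694, 620, -670, -1940],
    [-9036, 0, -8932, -4622, -1768, -4726, 104, -208, 2592, -3212, 5606, 2754, 6254, -1936, 5708,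
      -228, 6394, 2216, -276, -1156, -812],
    [-7444, 0, -7916, -3250, -900, -2778, -472, 944, 2300, -2004, 5878, 3634, 6674, -2114, 4700,
      -316, 4840, 1874, 64, -726, -956],
    [-19660, 0, -19720, -9770, -3752, -9710, -60, 120, 6140, -6000, 12314, 6946, 13470, -3038,
      12036, 12, 12500, 5694, 620, -670, -1940]]

/-- The power `9` of the matrix. -/
def bp9 : List (List ℤ) :=
  [[1544, 0, 1632, 684, 230, 596, 88, -176, -542, 306, -1088, -772, -1188, 163, -908, -48, -805,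
      -552, -222, -175, 193],
    [6140, 0, 6134, 3076, 1170, 3082, -6, 12, -1840, 1980, -3826, -2080, -4244, 1096, -3812, 48,
      -4084, -1700, -114, 370, 584],
    [2592, 0, 2706, 1182, 350, 1068, 114, -228, -756, 804, -1972, -1126, -2254, 794, -1664, 140,
      -1808, -588, 78, 396, 306],
    [2300, 0, 2458, 992, 306, 834, 158, -316, -796, 460, -1714, -1204, -1892, 346, -1372, -32,
      -1238, -776, -282, -176, 302],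
    [6140, 0, 6134, 3076, 1170, 3082, -6, 12, -1840, 1980, -3826, -2080, -4244, 1096, -3812, 48,
      -4084, -1700, -114, 370, 584],
    [22252, 0, 22426, 10952, 4102, 10778, 174, -348, -6896, 6804, -14286, -8072, -15724, 3832,
      -13700, 128, -14308, -6282, -542, 1066, 2246],
    [-91036, 0, -90974, -45580, -17862, -45642, 62, -124, 28812, -27808, 56278, 31460, 60968,
      -12966, 55436, 312, 57242, 26506, 2558, -2892, -8900],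
    [-5532, 0, -5442, -2856, -1094, -2946, 90, -180, 1544, -2046, 3406, 1600, 3826, -1266, 3524,
      -172, 4030, 1296, -254, -844, -478],
    [-4852, 0, -5210, -2068, -550, -1710, -358, 716, 1544, -1200, 3906, 2508, 4420, -1320, 3036,
      -176, 3032, 1286, 142, -330, -650],
    [-19660, 0, -19720, -9770, -3752, -9710, -60, 120, 6140, -6000, 12314, 6946, 13470, -3038,
      12036, 12, 12500, 5694, 620, -670, -1940],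
    [-9036, 0, -8932, -4622, -1768, -4726, 104, -208, 2592, -3212, 5606, 2754, 6254, -1936, 5708,
      -228, 6394, 2216, -276, -1156, -812],
    [-7444, 0, -7916, -3250, -900, -2778, -472, 944, 2300, -2004, 5878, 3634, 6674, -2114, 4700,
      -316, 4840, 1874, 64, -726, -956],
    [-19660, 0, -19720, -9770, -3752, -9710, -60, 120, 6140, -6000, 12314, 6946, 13470, -3038,
      12036, 12, 12500, 5694, 620, -670, -1940],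
    [-70884, 0, -71472, -34854, -13112, -34266, -588, 1176, 22252, -21456, 45646, 25846, 49954,
      -11854, 43484, -348, 45088, 20046, 1548, -3330, -7224],
    [49720, 0, 50248, 24332, 9178, 23804, 528, -1056, -15922, 14654, -32212, -18508, -35004, 7853,
      -30308, 104, -30951, -14274, -1242, 1879, 5173],
    [18084, 0, 17568, 9558, 4040, 10074, -516, 1032, -5532, 6116, -10010, -5002, -10746, 2138,
      -11036, -180, -11824, -5232, -292, 746, 1494],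
    [16772, 0, 17096, 8062, 2712, 7738, 324, -648, -4852, 5560, -11742, -6310, -13290, 4498,
      -10700, 716, -11804, -3902, 572, 2454, 1772],
    [61848, 0, 62540, 30232, 11344, 29540, 692, -1384, -19660, 18244, -40040, -23092, -43700, 9918,
      -37776, 120, -38694, -17830, -1824, 2174, 6412],
    [29304, 0, 28696, 15260, 6316, 15868, -608, 1216, -9036, 9676, -16784, -8664, -18080, 3734,
      -17888, -208, -19002, -8450, -516, 1222, 2548],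
    [25808, 0, 26028, 12684, 4480, 12464, 220, -440, -7444, 8772, -17348, -9064, -19544, 6434,
      -16408, 944, -18198, -6118, 848, 3610, 2584],
    [61848, 0, 62540, 30232, 11344, 29540, 692, -1384, -19660, 18244, -40040, -23092, -43700, 9918,
      -37776, 120, -38694, -17830, -1824, 2174, 6412]]

/-- The power `10` of the matrix. -/
def bp10 : List (List ℤ) :=
  [[-4852, 0, -5210, -2068, -550, -1710, -358, 716, 1544, -1200, 3906, 2508, 4420, -1320, 3036,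
      -176, 3032, 1286, 142, -330, -650],
    [-19660, 0, -19720, -9770, -3752, -9710, -60, 120, 6140, -6000, 12314, 6946, 13470, -3038,
      12036, 12, 12500, 5694, 620, -670, -1940],
    [-9036, 0, -8932, -4622, -1768, -4726, 104, -208, 2592, -3212, 5606, 2754, 6254, -1936, 5708,
      -228, 6394, 2216, -276, -1156, -812],
    [-7444, 0, -7916, -3250, -900, -2778, -472, 944, 2300, -2004, 5878, 3634, 6674, -2114, 4700,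
      -316, 4840, 1874, 64, -726, -956],
    [-19660, 0, -19720, -9770, -3752, -9710, -60, 120, 6140, -6000, 12314, 6946, 13470, -3038,
      12036, 12, 12500, 5694, 620, -670, -1940],
    [-70884, 0, -71472, -34854, -13112, -34266, -588, 1176, 22252, -21456, 45646, 25846, 49954,
      -11854, 43484, -348, 45088, 20046, 1548, -3330, -7224],
    [282764, 0, 285572, 138574, 52628, 135766, 2808, -5616, -91036, 82764, -182162, -105110,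
      -197430, 42738, -171892, -124, -174676, -82158, -8208, 8706, 29372],
    [18084, 0, 17568, 9558, 4040, 10074, -516, 1032, -5532, 6116, -10010, -5002, -10746, 2138,
      -11036, -180, -11824, -5232, -292, 746, 1494],
    [16772, 0, 17096, 8062, 2712, 7738, 324, -648, -4852, 5560, -11742, -6310, -13290, 4498,
      -10700, 716, -11804, -3902, 572, 2454, 1772],
    [61848, 0, 62540, 30232, 11344, 29540, 692, -1384, -19660, 18244, -40040, -23092, -43700, 9918,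
      -37776, 120, -38694, -17830, -1824, 2174, 6412],
    [29304, 0, 28696, 15260, 6316, 15868, -608, 1216, -9036, 9676, -16784, -8664, -18080, 3734,
      -17888, -208, -19002, -8450, -516, 1222, 2548],
    [25808, 0, 26028, 12684, 4480, 12464, 220, -440, -7444, 8772, -17348, -9064, -19544, 6434,
      -16408, 944, -18198, -6118, 848, 3610, 2584],
    [61848, 0, 62540, 30232, 11344, 29540, 692, -1384, -19660, 18244, -40040, -23092, -43700, 9918,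
      -37776, 120, -38694, -17830, -1824, 2174, 6412],
    [224464, 0, 226252, 110444, 41696, 108656, 1788, -3576, -70884, 67896, -144732, -81712,
      -157844, 37206, -137496, 1176, -142234, -63214, -4048, 11078, 22964],
    [-156196, 0, -157862, -76432, -28642, -74766, -1666, 3332, 49720, -46756, 102002, 57896,
      111020, -26284, 95580, -1056, 98376, 43726, 2306, -8154, -16286],
    [-54864, 0, -54820, -27476, -11080, -27520, 44, -88, 18084, -15744, 33180, 19336, 35308, -5582,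
      32792, 1032, 32578, 17194, 2976, 758, -5428],
    [-56704, 0, -55740, -29316, -11664, -30280, 964, -1928, 16772, -19656, 33860, 16848, 37204,
      -9990, 35304, -648, 38754, 14910, -672, -5262, -4988],
    [-195160, 0, -197556, -95184, -35380, -92788, -2396, 4792, 61848, -58220, 127948, 73048,
      139764, -33472, 119608, -1384, 123232, 54764, 3532, -9856, -20416],
    [-89608, 0, -89724, -44688, -17772, -44572, -116, 232, 29304, -25984, 55028, 31848, 58864,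
      -10348, 53832, 1216, 53932, 27456, 4116, -20, -8944],
    [-86008, 0, -84436, -44576, -17980, -46148, 1572, -3144, 25808, -29332, 50644, 25512, 55284,
      -13724, 53192, -440, 57756, 23360, -156, -6484, -7536],
    [-195160, 0, -197556, -95184, -35380, -92788, -2396, 4792, 61848, -58220, 127948, 73048,
      139764, -33472, 119608, -1384, 123232, 54764, 3532, -9856, -20416]]

/-- Step `1` of the Horner scheme. -/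
def hp1 : List (List ℤ) :=
  [[6, 0, 0, 0, 0, 0, 0, 0, 1, 0, 0, 0, 0, 0, 0, 0, 0, 0, 0, 0, 0],
    [0, 6, 0, 0, 0, 0, 0, 0, 0, 1, 0, 0, 0, 0, 0, 0, 0, 0, 0, 0, 0],
    [0, 0, 6, 0, 0, 0, 0, 0, 0, 0, 1, 0, 0, 0, 0, 0, 0, 0, 0, 0, 0],
    [0, 0, 0, 6, 0, 0, 0, 0, 0, 0, 0, 1, 0, 0, 0, 0, 0, 0, 0, 0, 0],
    [0, 0, 0, 0, 6, 0, 0, 0, 0, 0, 0, 0, 1, 0, 0, 0, 0, 0, 0, 0, 0],
    [0, 0, 0, 0, 0, 6, 0, 0, 0, 0, 0, 0, 0, 1, 0, 0, 0, 0, 0, 0, 0],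
    [-2, 0, -3, 0, 1, 1, 5, 2, 0, -1, 4, 4, 7, -3, 2, 0, 3, 0, -1, -1, 1],
    [0, 0, 0, 0, 0, 0, 0, 6, 0, 0, 0, 0, 0, 0, 0, 1, 0, 0, 0, 0, 0],
    [0, 0, 0, 0, 0, 0, 0, 0, 6, 0, 0, 0, 0, 0, 0, 0, 1, 0, 0, 0, 0],
    [0, 0, 0, 0, 0, 0, 0, 0, 0, 6, 0, 0, 0, 0, 0, 0, 0, 1, 0, 0, 0],
    [0, 0, 0, 0, 0, 0, 0, 0, 0, 0, 6, 0, 0, 0, 0, 0, 0, 0, 1, 0, 0],
    [0, 0, 0, 0, 0, 0, 0, 0, 0, 0, 0, 6, 0, 0, 0, 0, 0, 0, 0, 1, 0],
    [0, 0, 0, 0, 0, 0, 0, 0, 0, 0, 0, 0, 6, 0, 0, 0, 0, 0, 0, 0, 1],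
    [-2, 0, -2, -1, 0, -1, 0, 0, 0, -1, 1, 0, 2, 5, 2, 0, 3, 0, 1, -1, 1],
    [4, 0, 4, 2, 1, 2, 0, 0, 0, 1, -1, 0, -2, 1, 4, 0, -3, 0, 0, 1, -1],
    [0, 0, 1, -1, -1, -2, 1, -2, 0, -2, -1, -1, -1, 0, 0, 6, 0, 0, 0, 0, 0],
    [0, 0, 0, 0, 0, 0, 0, 0, 0, 0, 0, -1, 0, 0, 0, 0, 7, -1, -1, -2, 1],
    [2, 0, 2, 1, 0, 1, 0, 0, 0, 1, -1, 0, -2, 1, -2, 0, -3, 6, 0, 1, -1],
    [0, 0, 1, -1, -1, -2, 1, -2, 0, -1, -2, -2, -3, 1, 0, 0, 0, 0, 6, 0, 0],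
    [0, 0, 0, 0, 0, 0, 0, 0, 0, 0, 0, -1, 0, 0, 0, 0, 1, -1, -2, 4, 1],
    [2, 0, 2, 1, 0, 1, 0, 0, 0, 1, -1, 0, -2, 1, -2, 0, -3, 0, 0, 1, 5]]

/-- Step `2` of the Horner scheme. -/
def hp2 : List (List ℤ) :=
  [[16, 0, 0, 0, 0, 0, 0, 0, 6, 0, 0, 0, 0, 0, 0, 0, 1, 0, 0, 0, 0],
    [0, 16, 0, 0, 0, 0, 0, 0, 0, 6, 0, 0, 0, 0, 0, 0, 0, 1, 0, 0, 0],
    [0, 0, 16, 0, 0, 0, 0, 0, 0, 0, 6, 0, 0, 0, 0, 0, 0, 0, 1, 0, 0],
    [0, 0, 0, 16, 0, 0, 0, 0, 0, 0, 0, 6, 0, 0, 0, 0, 0, 0, 0, 1, 0],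
    [0, 0, 0, 0, 16, 0, 0, 0, 0, 0, 0, 0, 6, 0, 0, 0, 0, 0, 0, 0, 1],
    [-2, 0, -2, -1, 0, 15, 0, 0, 0, -1, 1, 0, 2, 5, 2, 0, 3, 0, 1, -1, 1],
    [6, 0, 0, 9, 8, 15, 10, 12, -2, 2, 13, 20, 27, -9, -2, 2, -1, -3, -5, 1, 8],
    [0, 0, 1, -1, -1, -2, 1, 14, 0, -2, -1, -1, -1, 0, 0, 6, 0, 0, 0, 0, 0],
    [0, 0, 0, 0, 0, 0, 0, 0, 16, 0, 0, -1, 0, 0, 0, 0, 7, -1, -1, -2, 1],
    [2, 0, 2, 1, 0, 1, 0, 0, 0, 17, -1, 0, -2, 1, -2, 0, -3, 6, 0, 1, -1],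
    [0, 0, 1, -1, -1, -2, 1, -2, 0, -1, 14, -2, -3, 1, 0, 0, 0, 0, 6, 0, 0],
    [0, 0, 0, 0, 0, 0, 0, 0, 0, 0, 0, 15, 0, 0, 0, 0, 1, -1, -2, 4, 1],
    [2, 0, 2, 1, 0, 1, 0, 0, 0, 1, -1, 0, 14, 1, -2, 0, -3, 0, 0, 1, 5],
    [0, 0, 1, -1, 1, -2, 1, -2, -2, -3, -2, -5, 1, 14, 4, 0, 8, -3, 5, -6, 6],
    [12, 0, 12, 6, 4, 6, 0, 0, 4, 2, 2, 4, -3, 4, 12, 0, -8, 3, 1, 6, -6],
    [-2, 0, 3, -6, -5, -11, 5, -10, 0, -13, -1, -3, 0, -5, 2, 14, 3, -2, -2, -2, 0],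
    [0, 0, -1, 1, 1, 2, -1, 2, 0, 1, 2, -3, 3, -1, 0, 0, 21, -5, -3, -11, 5],
    [0, 0, 0, 0, -2, 0, 0, 0, 2, 2, 0, 3, -4, 3, -4, 0, -8, 19, 1, 6, -6],
    [-4, 0, 1, -7, -5, -12, 5, -10, 0, -8, -6, -9, -10, 0, 4, -2, 6, -1, 14, -4, -1],
    [0, 0, -2, 2, 2, 4, -2, 4, 0, 2, 4, -1, 6, -2, 0, 0, 5, -5, -9, 5, 5],
    [0, 0, 0, 0, -2, 0, 0, 0, 2, 2, 0, 3, -4, 3, -4, 0, -8, 3, 1, 6, 10]]

/-- Step `3` of the Horner scheme. -/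
def hp3 : List (List ℤ) :=
  [[30, 0, 0, 0, 0, 0, 0, 0, 16, 0, 0, -1, 0, 0, 0, 0, 7, -1, -1, -2, 1],
    [2, 30, 2, 1, 0, 1, 0, 0, 0, 17, -1, 0, -2, 1, -2, 0, -3, 6, 0, 1, -1],
    [0, 0, 31, -1, -1, -2, 1, -2, 0, -1, 14, -2, -3, 1, 0, 0, 0, 0, 6, 0, 0],
    [0, 0, 0, 30, 0, 0, 0, 0, 0, 0, 0, 15, 0, 0, 0, 0, 1, -1, -2, 4, 1],
    [2, 0, 2, 1, 30, 1, 0, 0, 0, 1, -1, 0, 14, 1, -2, 0, -3, 0, 0, 1, 5],
    [0, 0, 1, -1, 1, 28, 1, -2, -2, -3, -2, -5, 1, 14, 4, 0, 8, -3, 5, -6, 6],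
    [0, 0, -13, 13, 11, 26, 17, 26, 6, 3, 36, 57, 67, -8, -4, 12, -8, 2, -7, 22, 25],
    [-2, 0, 3, -6, -5, -11, 5, 20, 0, -13, -1, -3, 0, -5, 2, 14, 3, -2, -2, -2, 0],
    [0, 0, -1, 1, 1, 2, -1, 2, 30, 1, 2, -3, 3, -1, 0, 0, 21, -5, -3, -11, 5],
    [0, 0, 0, 0, -2, 0, 0, 0, 2, 32, 0, 3, -4, 3, -4, 0, -8, 19, 1, 6, -6],
    [-4, 0, 1, -7, -5, -12, 5, -10, 0, -8, 24, -9, -10, 0, 4, -2, 6, -1, 14, -4, -1],
    [0, 0, -2, 2, 2, 4, -2, 4, 0, 2, 4, 29, 6, -2, 0, 0, 5, -5, -9, 5, 5],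
    [0, 0, 0, 0, -2, 0, 0, 0, 2, 2, 0, 3, 26, 3, -4, 0, -8, 3, 1, 6, 10],
    [-8, 0, -4, -8, 0, -12, 4, -8, 0, -13, 2, -9, 7, 23, 16, -2, 24, -5, 15, -17, 11],
    [34, 0, 35, 16, 11, 15, 1, -2, 12, 4, 5, 6, -9, 12, 20, 0, -13, 4, 2, 13, -10],
    [4, 0, 11, -5, -5, -12, 7, -14, -2, -26, 8, 3, 12, -23, 0, 20, 1, -14, -10, -5, 1],
    [4, 0, 2, 4, 2, 6, -2, 4, 0, 5, 0, -7, 1, 3, -4, 2, 34, -9, 3, -21, 11],
    [4, 0, 5, 1, -5, 0, 1, -2, 0, 5, -8, 0, -17, 7, -12, 0, -18, 34, -1, 13, -12],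
    [2, 0, 9, -6, -3, -13, 7, -14, -4, -13, -7, -15, -14, -11, 6, -10, 11, -10, 21, -16, -5],
    [8, 0, 1, 11, 7, 18, -7, 14, 0, 13, 6, 2, 11, 3, -8, 4, -2, -8, -11, 13, 12],
    [4, 0, 5, 1, -5, 0, 1, -2, 0, 5, -8, 0, -17, 7, -12, 0, -18, 4, -1, 13, 18]]

/-- Step `4` of the Horner scheme. -/
def hp4 : List (List ℤ) :=
  [[24, 0, -1, 1, 1, 2, -1, 2, 30, 1, 2, -3, 3, -1, 0, 0, 21, -5, -3, -11, 5],
    [0, 24, 0, 0, -2, 0, 0, 0, 2, 32, 0, 3, -4, 3, -4, 0, -8, 19, 1, 6, -6],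
    [-4, 0, 25, -7, -5, -12, 5, -10, 0, -8, 24, -9, -10, 0, 4, -2, 6, -1, 14, -4, -1],
    [0, 0, -2, 26, 2, 4, -2, 4, 0, 2, 4, 29, 6, -2, 0, 0, 5, -5, -9, 5, 5],
    [0, 0, 0, 0, 22, 0, 0, 0, 2, 2, 0, 3, 26, 3, -4, 0, -8, 3, 1, 6, 10],
    [-8, 0, -4, -8, 0, 12, 4, -8, 0, -13, 2, -9, 7, 23, 16, -2, 24, -5, 15, -17, 11],
    [20, 0, 8, 22, 8, 34, 12, 24, 0, -3, 26, 69, 77, -1, -28, 26, -22, -11, -25, 43, 67],
    [4, 0, 11, -5, -5, -12, 7, 10, -2, -26, 8, 3, 12, -23, 0, 20, 1, -14, -10, -5, 1],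
    [4, 0, 2, 4, 2, 6, -2, 4, 24, 5, 0, -7, 1, 3, -4, 2, 34, -9, 3, -21, 11],
    [4, 0, 5, 1, -5, 0, 1, -2, 0, 29, -8, 0, -17, 7, -12, 0, -18, 34, -1, 13, -12],
    [2, 0, 9, -6, -3, -13, 7, -14, -4, -13, 17, -15, -14, -11, 6, -10, 11, -10, 21, -16, -5],
    [8, 0, 1, 11, 7, 18, -7, 14, 0, 13, 6, 26, 11, 3, -8, 4, -2, -8, -11, 13, 12],
    [4, 0, 5, 1, -5, 0, 1, -2, 0, 5, -8, 0, 7, 7, -12, 0, -18, 4, -1, 13, 18],
    [22, 0, 31, 2, 7, -7, 9, -18, -8, -16, -15, -27, -13, 14, 10, -8, 22, -20, 31, -28, 19],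
    [42, 0, 43, 20, 19, 19, 1, -2, 34, -1, 33, 16, 8, 16, 22, -2, 9, 4, 3, 7, -10],
    [6, 0, 9, 0, -3, -3, 3, -6, 4, -27, 29, 27, 34, -33, -6, 10, -15, -22, -13, 14, 5],
    [-14, 0, -7, -14, -11, -21, 7, -14, 4, -10, -9, -25, -13, 10, 6, 4, 46, -8, 13, -36, 17],
    [-20, 0, -22, -8, -10, -6, -2, 4, 4, 3, 8, 12, -1, -1, -4, -2, -11, 34, -10, 12, -24],
    [2, 0, 6, -3, 2, -7, 4, -8, 2, -6, 3, -5, -11, -11, 10, -14, 6, -8, 20, -10, -14],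
    [-16, 0, -16, -8, -8, -8, 0, 0, 8, 3, -2, -10, 1, 21, 0, 14, 11, 2, -8, 4, 22],
    [-20, 0, -22, -8, -10, -6, -2, 4, 4, 3, 8, 12, -1, -1, -4, -2, -11, 10, -10, 12, 0]]

/-- Step `5` of the Horner scheme. -/
def hp5 : List (List ℤ) :=
  [[12, 0, 2, 4, 2, 6, -2, 4, 24, 5, 0, -7, 1, 3, -4, 2, 34, -9, 3, -21, 11],
    [4, 8, 5, 1, -5, 0, 1, -2, 0, 29, -8, 0, -17, 7, -12, 0, -18, 34, -1, 13, -12],
    [2, 0, 17, -6, -3, -13, 7, -14, -4, -13, 17, -15, -14, -11, 6, -10, 11, -10, 21, -16, -5],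
    [8, 0, 1, 19, 7, 18, -7, 14, 0, 13, 6, 26, 11, 3, -8, 4, -2, -8, -11, 13, 12],
    [4, 0, 5, 1, 3, 0, 1, -2, 0, 5, -8, 0, 7, 7, -12, 0, -18, 4, -1, 13, 18],
    [22, 0, 31, 2, 7, 1, 9, -18, -8, -16, -15, -27, -13, 14, 10, -8, 22, -20, 31, -28, 19],
    [-22, 0, -33, 0, -17, 11, -3, 22, 20, -10, 51, 73, 83, 2, -34, 24, -30, -24, -51, 44, 81],
    [6, 0, 9, 0, -3, -3, 3, 2, 4, -27, 29, 27, 34, -33, -6, 10, -15, -22, -13, 14, 5],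
    [-14, 0, -7, -14, -11, -21, 7, -14, 12, -10, -9, -25, -13, 10, 6, 4, 46, -8, 13, -36, 17],
    [-20, 0, -22, -8, -10, -6, -2, 4, 4, 11, 8, 12, -1, -1, -4, -2, -11, 34, -10, 12, -24],
    [2, 0, 6, -3, 2, -7, 4, -8, 2, -6, 11, -5, -11, -11, 10, -14, 6, -8, 20, -10, -14],
    [-16, 0, -16, -8, -8, -8, 0, 0, 8, 3, -2, -2, 1, 21, 0, 14, 11, 2, -8, 4, 22],
    [-20, 0, -22, -8, -10, -6, -2, 4, 4, 3, 8, 12, 7, -1, -4, -2, -11, 10, -10, 12, 0],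
    [-8, 0, 6, -18, -4, -32, 14, -28, 22, -29, 18, -10, -5, 0, 28, -18, 28, -10, 24, -29, -5],
    [42, 0, 42, 21, 22, 21, 0, 0, 42, 0, 43, 4, 19, 19, 10, -2, 53, -17, 25, -17, 25],
    [2, 0, -4, 7, 0, 13, -6, 12, 6, 0, 27, 29, 27, -15, -14, 2, -18, -26, -20, 36, 26],
    [8, 0, 18, -6, -4, -16, 10, -20, -14, -23, -14, -26, -15, -24, 4, -14, 28, -20, 20, -47, -1],
    [10, 0, 0, 15, 6, 25, -10, 20, -20, 23, -15, 5, -6, -3, -18, 4, -22, 10, -4, 19, -9],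
    [10, 0, 12, 3, 8, 1, 2, -4, 2, 3, -3, -9, -14, 0, 10, -8, 13, -2, 10, -2, -10],
    [6, 0, 12, -3, -6, -9, 6, -12, -16, -17, -17, -21, -4, -13, -6, 0, 14, -12, 0, -29, 13],
    [10, 0, 0, 15, 6, 25, -10, 20, -20, 23, -15, 5, -6, -3, -18, 4, -22, 2, -4, 19, -1]]

/-- Step `6` of the Horner scheme. -/
def hp6 : List (List ℤ) :=
  [[6, 0, -7, -14, -11, -21, 7, -14, 12, -10, -9, -25, -13, 10, 6, 4, 46, -8, 13, -36, 17],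
    [-20, 20, -22, -8, -10, -6, -2, 4, 4, 11, 8, 12, -1, -1, -4, -2, -11, 34, -10, 12, -24],
    [2, 0, 26, -3, 2, -7, 4, -8, 2, -6, 11, -5, -11, -11, 10, -14, 6, -8, 20, -10, -14],
    [-16, 0, -16, 12, -8, -8, 0, 0, 8, 3, -2, -2, 1, 21, 0, 14, 11, 2, -8, 4, 22],
    [-20, 0, -22, -8, 10, -6, -2, 4, 4, 3, 8, 12, 7, -1, -4, -2, -11, 10, -10, 12, 0],
    [-8, 0, 6, -18, -4, -12, 14, -28, 22, -29, 18, -10, -5, 0, 28, -18, 28, -10, 24, -29, -5],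
    [-20, 0, -44, 14, -10, 38, -4, 48, -22, 27, 12, 52, 49, -10, -48, 22, -38, -24, -2, 69, 73],
    [2, 0, -4, 7, 0, 13, -6, 32, 6, 0, 27, 29, 27, -15, -14, 2, -18, -26, -20, 36, 26],
    [8, 0, 18, -6, -4, -16, 10, -20, 6, -23, -14, -26, -15, -24, 4, -14, 28, -20, 20, -47, -1],
    [10, 0, 0, 15, 6, 25, -10, 20, -20, 43, -15, 5, -6, -3, -18, 4, -22, 10, -4, 19, -9],
    [10, 0, 12, 3, 8, 1, 2, -4, 2, 3, 17, -9, -14, 0, 10, -8, 13, -2, 10, -2, -10],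
    [6, 0, 12, -3, -6, -9, 6, -12, -16, -17, -17, -1, -4, -13, -6, 0, 14, -12, 0, -29, 13],
    [10, 0, 0, 15, 6, 25, -10, 20, -20, 23, -15, 5, 14, -3, -18, 4, -22, 2, -4, 19, -1],
    [54, 0, 46, 35, 36, 43, -8, 16, -8, 11, 19, 9, 14, -17, 2, -28, 24, -28, 34, -9, -5],
    [18, 0, 41, -14, -13, -37, 23, -46, 42, -22, -5, -63, -49, 45, 22, 0, 81, -36, 43, -69, 56],
    [-14, 0, -26, 5, -2, 17, -12, 24, 2, 23, 9, 3, 14, 12, -14, 32, 3, -18, -36, 0, 38],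
    [2, 0, -2, 5, 8, 9, -4, 8, 8, 5, 25, 27, 6, -19, 6, -20, -4, -4, 18, 9, -31],
    [-44, 0, -34, -32, -28, -42, 10, -20, 10, -8, -22, -18, -28, 37, 8, 20, -11, 46, -24, 7, -5],
    [12, 0, 12, 6, 10, 6, 0, 0, 10, 2, 10, -12, 4, 3, 8, -4, 25, -8, 6, -35, 1],
    [-8, 0, -14, 2, 0, 8, -6, 12, 6, 2, 28, 36, 20, -19, -4, -12, -37, -2, 8, 31, -21],
    [-44, 0, -34, -32, -28, -42, 10, -20, 10, -8, -22, -18, -28, 37, 8, 20, -11, 26, -24, 7, 15]]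

/-- Step `7` of the Horner scheme. -/
def hp7 : List (List ℤ) :=
  [[-48, 0, 18, -6, -4, -16, 10, -20, 6, -23, -14, -26, -15, -24, 4, -14, 28, -20, 20, -47, -1],
    [10, -56, 0, 15, 6, 25, -10, 20, -20, 43, -15, 5, -6, -3, -18, 4, -22, 10, -4, 19, -9],
    [10, 0, -44, 3, 8, 1, 2, -4, 2, 3, 17, -9, -14, 0, 10, -8, 13, -2, 10, -2, -10],
    [6, 0, 12, -59, -6, -9, 6, -12, -16, -17, -17, -1, -4, -13, -6, 0, 14, -12, 0, -29, 13],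
    [10, 0, 0, 15, -50, 25, -10, 20, -20, 23, -15, 5, 14, -3, -18, 4, -22, 2, -4, 19, -1],
    [54, 0, 46, 35, 36, -13, -8, 16, -8, 11, 19, 9, 14, -17, 2, -28, 24, -28, 34, -9, -5],
    [-66, 0, -42, -57, -72, -81, -32, -48, -20, -27, -89, -51, -76, 59, -30, 48, -36, -4, -94, 5,
      65],
    [-14, 0, -26, 5, -2, 17, -12, -32, 2, 23, 9, 3, 14, 12, -14, 32, 3, -18, -36, 0, 38],
    [2, 0, -2, 5, 8, 9, -4, 8, -48, 5, 25, 27, 6, -19, 6, -20, -4, -4, 18, 9, -31],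
    [-44, 0, -34, -32, -28, -42, 10, -20, 10, -64, -22, -18, -28, 37, 8, 20, -11, 46, -24, 7, -5],
    [12, 0, 12, 6, 10, 6, 0, 0, 10, 2, -46, -12, 4, 3, 8, -4, 25, -8, 6, -35, 1],
    [-8, 0, -14, 2, 0, 8, -6, 12, 6, 2, 28, -20, 20, -19, -4, -12, -37, -2, 8, 31, -21],
    [-44, 0, -34, -32, -28, -42, 10, -20, 10, -8, -22, -18, -84, 37, 8, 20, -11, 26, -24, 7, 15],
    [-8, 0, 6, -18, -12, -32, 14, -28, 54, 16, -12, -52, -66, 31, 12, 16, 25, -4, 4, -27, 35],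
    [-8, 0, 12, -24, 2, -44, 20, -40, 18, -69, 50, -20, 25, -66, -4, -46, 132, -34, 74, -113, -11],
    [-16, 0, -8, -16, -22, -24, 8, -16, -14, -22, -28, -6, 2, 11, -12, -32, -13, 20, 30, 3, 11],
    [0, 0, 2, -2, 4, -4, 2, -4, 2, 16, -24, -32, -34, 29, 12, 8, -25, 0, -4, 11, 17],
    [20, 0, 6, 24, 22, 38, -14, 28, -44, -14, 22, 40, 70, -84, -4, -20, 0, -60, 2, -8, -34],
    [12, 0, 14, 4, 6, 2, 2, -4, 12, 0, 6, 8, 0, 10, 4, 0, 6, 12, 2, 6, -4],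
    [-12, 0, -10, -8, -6, -10, 2, -4, -8, 14, -34, -20, -38, 26, 4, 12, 6, 8, -10, -10, 16],
    [20, 0, 6, 24, 22, 38, -14, 28, -44, -14, 22, 40, 70, -84, -4, -20, 0, -4, 2, -8, -90]]

/-- Step `8` of the Horner scheme. -/
def hp8 : List (List ℤ) :=
  [[10, 0, -2, 5, 8, 9, -4, 8, -48, 5, 25, 27, 6, -19, 6, -20, -4, -4, 18, 9, -31],
    [-44, 8, -34, -32, -28, -42, 10, -20, 10, -64, -22, -18, -28, 37, 8, 20, -11, 46, -24, 7, -5],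
    [12, 0, 20, 6, 10, 6, 0, 0, 10, 2, -46, -12, 4, 3, 8, -4, 25, -8, 6, -35, 1],
    [-8, 0, -14, 10, 0, 8, -6, 12, 6, 2, 28, -20, 20, -19, -4, -12, -37, -2, 8, 31, -21],
    [-44, 0, -34, -32, -20, -42, 10, -20, 10, -8, -22, -18, -84, 37, 8, 20, -11, 26, -24, 7, 15],
    [-8, 0, 6, -18, -12, -24, 14, -28, 54, 16, -12, -52, -66, 31, 12, 16, 25, -4, 4, -27, 35],
    [-52, 0, -66, -12, -16, 2, -6, 28, -66, 2, -2, -14, -6, -107, -8, -48, -63, 4, 28, 15, -111],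
    [-16, 0, -8, -16, -22, -24, 8, -8, -14, -22, -28, -6, 2, 11, -12, -32, -13, 20, 30, 3, 11],
    [0, 0, 2, -2, 4, -4, 2, -4, 10, 16, -24, -32, -34, 29, 12, 8, -25, 0, -4, 11, 17],
    [20, 0, 6, 24, 22, 38, -14, 28, -44, -6, 22, 40, 70, -84, -4, -20, 0, -60, 2, -8, -34],
    [12, 0, 14, 4, 6, 2, 2, -4, 12, 0, 14, 8, 0, 10, 4, 0, 6, 12, 2, 6, -4],
    [-12, 0, -10, -8, -6, -10, 2, -4, -8, 14, -34, -12, -38, 26, 4, 12, 6, 8, -10, -10, 16],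
    [20, 0, 6, 24, 22, 38, -14, 28, -44, -14, 22, 40, 78, -84, -4, -20, 0, -4, 2, -8, -90],
    [20, 0, 26, 4, 6, -2, 6, -12, -8, -38, 26, 16, 34, -50, 4, -28, 58, 18, 34, -50, -66],
    [-14, 0, -6, -15, -12, -23, 8, -16, -8, 15, -27, -65, -68, -13, 14, -40, 46, -88, 58, -61, 47],
    [-24, 0, -34, -2, -2, 8, -10, 20, -16, 34, -12, -2, -40, -10, 0, -8, -24, -12, -18, 14, -8],
    [20, 0, 22, 8, 10, 6, 2, -4, 0, -14, 10, 20, 22, -14, 4, -4, 2, 30, 6, -6, -46],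
    [-8, 0, -12, 0, 0, 4, -4, 8, 20, 38, -20, -8, -34, 68, 0, 28, -52, 2, -32, 56, 62],
    [8, 0, 8, 4, 4, 4, 0, 0, 12, -2, 16, -4, 10, 0, 0, -4, 24, -12, 4, -16, 12],
    [8, 0, 8, 4, 4, 4, 0, 0, -12, -14, 4, 12, 22, -24, 0, -4, -12, 18, 4, -4, -42],
    [-8, 0, -12, 0, 0, 4, -4, 8, 20, 38, -20, -8, -34, 68, 0, 28, -52, -6, -32, 56, 70]]

/-- Step `9` of the Horner scheme. -/
def hp9 : List (List ℤ) :=
  [[-24, 0, 2, -2, 4, -4, 2, -4, 10, 16, -24, -32, -34, 29, 12, 8, -25, 0, -4, 11, 17],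
    [20, -24, 6, 24, 22, 38, -14, 28, -44, -6, 22, 40, 70, -84, -4, -20, 0, -60, 2, -8, -34],
    [12, 0, -10, 4, 6, 2, 2, -4, 12, 0, 14, 8, 0, 10, 4, 0, 6, 12, 2, 6, -4],
    [-12, 0, -10, -32, -6, -10, 2, -4, -8, 14, -34, -12, -38, 26, 4, 12, 6, 8, -10, -10, 16],
    [20, 0, 6, 24, -2, 38, -14, 28, -44, -14, 22, 40, 78, -84, -4, -20, 0, -4, 2, -8, -90],
    [20, 0, 26, 4, 6, -26, 6, -12, -8, -38, 26, 16, 34, -50, 4, -28, 58, 18, 34, -50, -66],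
    [-20, 0, -34, 4, 6, 18, -38, 28, -52, 66, -90, 4, -78, 40, 4, 28, -108, 50, -70, 80, -52],
    [-24, 0, -34, -2, -2, 8, -10, -4, -16, 34, -12, -2, -40, -10, 0, -8, -24, -12, -18, 14, -8],
    [20, 0, 22, 8, 10, 6, 2, -4, -24, -14, 10, 20, 22, -14, 4, -4, 2, 30, 6, -6, -46],
    [-8, 0, -12, 0, 0, 4, -4, 8, 20, 14, -20, -8, -34, 68, 0, 28, -52, 2, -32, 56, 62],
    [8, 0, 8, 4, 4, 4, 0, 0, 12, -2, -8, -4, 10, 0, 0, -4, 24, -12, 4, -16, 12],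
    [8, 0, 8, 4, 4, 4, 0, 0, -12, -14, 4, -12, 22, -24, 0, -4, -12, 18, 4, -4, -42],
    [-8, 0, -12, 0, 0, 4, -4, 8, 20, 38, -20, -8, -58, 68, 0, 28, -52, -6, -32, 56, 70],
    [8, 0, 8, 4, 4, 4, 0, 0, 20, 22, 4, -20, -38, -4, 0, -12, 0, -46, 12, 0, 42],
    [-16, 0, -6, -18, 4, -28, 10, -20, -14, 0, -36, -44, -62, -3, 20, -16, 43, 30, 28, -57, -61],
    [0, 0, -16, 16, 16, 32, -16, 32, -24, 34, -20, 12, 10, 10, 0, -4, -26, 44, -16, 18, -50],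
    [8, 0, 8, 4, 4, 4, 0, 0, 20, 2, 20, 12, 6, 8, 0, -4, -28, -10, 4, 28, 18],
    [0, 0, 0, 0, 0, 0, 0, 0, -8, -24, 12, 16, 48, -20, 0, 8, 24, 10, -8, -16, -30],
    [0, 0, 0, 0, 0, 0, 0, 0, 8, 4, 4, -8, -4, 8, 0, 0, 20, -10, 0, -20, 18],
    [0, 0, 0, 0, 0, 0, 0, 0, 8, 4, 4, 16, -4, 8, 0, 0, -28, 2, 0, 20, 6],
    [0, 0, 0, 0, 0, 0, 0, 0, -8, -24, 12, 16, 48, -20, 0, 8, 24, 34, -8, -16, -54]]

/-- Step `10` of the Horner scheme. -/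
def hp10 : List (List ℤ) :=
  [[-12, 0, 22, 8, 10, 6, 2, -4, -24, -14, 10, 20, 22, -14, 4, -4, 2, 30, 6, -6, -46],
    [-8, -32, -12, 0, 0, 4, -4, 8, 20, 14, -20, -8, -34, 68, 0, 28, -52, 2, -32, 56, 62],
    [8, 0, -24, 4, 4, 4, 0, 0, 12, -2, -8, -4, 10, 0, 0, -4, 24, -12, 4, -16, 12],
    [8, 0, 8, -28, 4, 4, 0, 0, -12, -14, 4, -12, 22, -24, 0, -4, -12, 18, 4, -4, -42],
    [-8, 0, -12, 0, -32, 4, -4, 8, 20, 38, -20, -8, -58, 68, 0, 28, -52, -6, -32, 56, 70],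
    [8, 0, 8, 4, 4, -28, 0, 0, 20, 22, 4, -20, -38, -4, 0, -12, 0, -46, 12, 0, 42],
    [8, 0, 4, 8, 8, 12, -36, 8, -20, 14, -36, -8, -2, 24, 0, 28, -80, 94, -64, 60, -106],
    [0, 0, -16, 16, 16, 32, -16, 0, -24, 34, -20, 12, 10, 10, 0, -4, -26, 44, -16, 18, -50],
    [8, 0, 8, 4, 4, 4, 0, 0, -12, 2, 20, 12, 6, 8, 0, -4, -28, -10, 4, 28, 18],
    [0, 0, 0, 0, 0, 0, 0, 0, -8, -56, 12, 16, 48, -20, 0, 8, 24, 10, -8, -16, -30],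
    [0, 0, 0, 0, 0, 0, 0, 0, 8, 4, -28, -8, -4, 8, 0, 0, 20, -10, 0, -20, 18],
    [0, 0, 0, 0, 0, 0, 0, 0, 8, 4, 4, -16, -4, 8, 0, 0, -28, 2, 0, 20, 6],
    [0, 0, 0, 0, 0, 0, 0, 0, -8, -24, 12, 16, 16, -20, 0, 8, 24, 34, -8, -16, -54],
    [0, 0, 0, 0, 0, 0, 0, 0, 8, 12, -4, -8, -20, -16, 0, 0, 20, 22, 0, -20, -38],
    [4, 0, 6, 0, 18, -2, 2, -4, -16, -14, 2, -4, 22, -38, 4, -20, 26, 14, 22, -34, -58],
    [0, 0, -4, 4, 4, 8, -4, 8, 0, 24, -28, -4, -12, 48, 0, 0, -32, 42, -4, 28, 2],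
    [0, 0, 0, 0, 0, 0, 0, 0, 8, 4, 4, 0, -4, 8, 0, 0, -12, 2, 0, 12, 6],
    [0, 0, 0, 0, 0, 0, 0, 0, 0, -8, 8, 0, 16, -8, 0, 0, 0, -64, 0, 0, 56],
    [0, 0, 0, 0, 0, 0, 0, 0, 0, 0, 0, 0, 0, 0, 0, 0, 8, 4, 0, -8, -4],
    [0, 0, 0, 0, 0, 0, 0, 0, 0, 0, 0, 8, 0, 0, 0, 0, 0, 12, 0, 0, -12],
    [0, 0, 0, 0, 0, 0, 0, 0, 0, -8, 8, 0, 16, -8, 0, 0, 0, -32, 0, 0, 24]]

/-- Step `11` of the Horner scheme. -/
def hp11 : List (List ℤ) :=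
  [[0, 0, 8, 4, 4, 4, 0, 0, -12, 2, 20, 12, 6, 8, 0, -4, -28, -10, 4, 28, 18],
    [0, -8, 0, 0, 0, 0, 0, 0, -8, -56, 12, 16, 48, -20, 0, 8, 24, 10, -8, -16, -30],
    [0, 0, -8, 0, 0, 0, 0, 0, 8, 4, -28, -8, -4, 8, 0, 0, 20, -10, 0, -20, 18],
    [0, 0, 0, -8, 0, 0, 0, 0, 8, 4, 4, -16, -4, 8, 0, 0, -28, 2, 0, 20, 6],
    [0, 0, 0, 0, -8, 0, 0, 0, -8, -24, 12, 16, 16, -20, 0, 8, 24, 34, -8, -16, -54],
    [0, 0, 0, 0, 0, -8, 0, 0, 8, 12, -4, -8, -20, -16, 0, 0, 20, 22, 0, -20, -38],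
    [0, 0, 0, 0, 0, 0, -8, 0, 8, 8, -4, -16, -8, 20, 0, 8, -40, 34, -16, 32, -22],
    [0, 0, -4, 4, 4, 8, -4, 0, 0, 24, -28, -4, -12, 48, 0, 0, -32, 42, -4, 28, 2],
    [0, 0, 0, 0, 0, 0, 0, 0, 0, 4, 4, 0, -4, 8, 0, 0, -12, 2, 0, 12, 6],
    [0, 0, 0, 0, 0, 0, 0, 0, 0, -16, 8, 0, 16, -8, 0, 0, 0, -64, 0, 0, 56],
    [0, 0, 0, 0, 0, 0, 0, 0, 0, 0, -8, 0, 0, 0, 0, 0, 8, 4, 0, -8, -4],
    [0, 0, 0, 0, 0, 0, 0, 0, 0, 0, 0, 0, 0, 0, 0, 0, 0, 12, 0, 0, -12],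
    [0, 0, 0, 0, 0, 0, 0, 0, 0, -8, 8, 0, 8, -8, 0, 0, 0, -32, 0, 0, 24],
    [0, 0, 0, 0, 0, 0, 0, 0, 0, 0, 0, 0, 0, -8, 0, 0, 8, 12, 0, -8, -20],
    [0, 0, 0, 0, 4, 0, 0, 0, 4, 14, -8, -8, -10, 12, 0, -4, -12, -6, 4, 8, 18],
    [0, 0, 0, 0, 0, 0, 0, 0, 0, 4, -8, 0, -4, 12, 0, 0, -4, 28, 0, 4, -16],
    [0, 0, 0, 0, 0, 0, 0, 0, 0, 0, 0, 0, 0, 0, 0, 0, 0, 4, 0, 0, -4],
    [0, 0, 0, 0, 0, 0, 0, 0, 0, 0, 0, 0, 0, 0, 0, 0, 0, -16, 0, 0, 16],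
    [0, 0, 0, 0, 0, 0, 0, 0, 0, 0, 0, 0, 0, 0, 0, 0, 0, 0, 0, 0, 0],
    [0, 0, 0, 0, 0, 0, 0, 0, 0, 0, 0, 0, 0, 0, 0, 0, 0, 0, 0, 0, 0],
    [0, 0, 0, 0, 0, 0, 0, 0, 0, 0, 0, 0, 0, 0, 0, 0, 0, -8, 0, 0, 8]]

/-- Step `12` of the Horner scheme. -/
def hp12 : List (List ℤ) :=
  [[0, 0, 0, 0, 0, 0, 0, 0, 0, 4, 4, 0, -4, 8, 0, 0, -12, 2, 0, 12, 6],
    [0, 0, 0, 0, 0, 0, 0, 0, 0, -16, 8, 0, 16, -8, 0, 0, 0, -64, 0, 0, 56],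
    [0, 0, 0, 0, 0, 0, 0, 0, 0, 0, -8, 0, 0, 0, 0, 0, 8, 4, 0, -8, -4],
    [0, 0, 0, 0, 0, 0, 0, 0, 0, 0, 0, 0, 0, 0, 0, 0, 0, 12, 0, 0, -12],
    [0, 0, 0, 0, 0, 0, 0, 0, 0, -8, 8, 0, 8, -8, 0, 0, 0, -32, 0, 0, 24],
    [0, 0, 0, 0, 0, 0, 0, 0, 0, 0, 0, 0, 0, -8, 0, 0, 8, 12, 0, -8, -20],
    [0, 0, 0, 0, 0, 0, 0, 0, 0, 0, 0, 0, 0, 0, 0, 0, 0, 16, 0, 0, -16],
    [0, 0, 0, 0, 0, 0, 0, 0, 0, 4, -8, 0, -4, 12, 0, 0, -4, 28, 0, 4, -16],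
    [0, 0, 0, 0, 0, 0, 0, 0, 0, 0, 0, 0, 0, 0, 0, 0, 0, 4, 0, 0, -4],
    [0, 0, 0, 0, 0, 0, 0, 0, 0, 0, 0, 0, 0, 0, 0, 0, 0, -16, 0, 0, 16],
    [0, 0, 0, 0, 0, 0, 0, 0, 0, 0, 0, 0, 0, 0, 0, 0, 0, 0, 0, 0, 0],
    [0, 0, 0, 0, 0, 0, 0, 0, 0, 0, 0, 0, 0, 0, 0, 0, 0, 0, 0, 0, 0],
    [0, 0, 0, 0, 0, 0, 0, 0, 0, 0, 0, 0, 0, 0, 0, 0, 0, -8, 0, 0, 8],
    [0, 0, 0, 0, 0, 0, 0, 0, 0, 0, 0, 0, 0, 0, 0, 0, 0, 0, 0, 0, 0],
    [0, 0, 0, 0, 0, 0, 0, 0, 0, 4, -4, 0, -4, 4, 0, 0, 0, 18, 0, 0, -14],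
    [0, 0, 0, 0, 0, 0, 0, 0, 0, 0, 0, 0, 0, 0, 0, 0, 0, 4, 0, 0, -4],
    [0, 0, 0, 0, 0, 0, 0, 0, 0, 0, 0, 0, 0, 0, 0, 0, 0, 0, 0, 0, 0],
    [0, 0, 0, 0, 0, 0, 0, 0, 0, 0, 0, 0, 0, 0, 0, 0, 0, 0, 0, 0, 0],
    [0, 0, 0, 0, 0, 0, 0, 0, 0, 0, 0, 0, 0, 0, 0, 0, 0, 0, 0, 0, 0],
    [0, 0, 0, 0, 0, 0, 0, 0, 0, 0, 0, 0, 0, 0, 0, 0, 0, 0, 0, 0, 0],
    [0, 0, 0, 0, 0, 0, 0, 0, 0, 0, 0, 0, 0, 0, 0, 0, 0, 0, 0, 0, 0]]

/-- Step `13` of the Horner scheme. -/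
def hp13 : List (List ℤ) :=
  [[0, 0, 0, 0, 0, 0, 0, 0, 0, 0, 0, 0, 0, 0, 0, 0, 0, 4, 0, 0, -4],
    [0, 0, 0, 0, 0, 0, 0, 0, 0, 0, 0, 0, 0, 0, 0, 0, 0, -16, 0, 0, 16],
    [0, 0, 0, 0, 0, 0, 0, 0, 0, 0, 0, 0, 0, 0, 0, 0, 0, 0, 0, 0, 0],
    [0, 0, 0, 0, 0, 0, 0, 0, 0, 0, 0, 0, 0, 0, 0, 0, 0, 0, 0, 0, 0],
    [0, 0, 0, 0, 0, 0, 0, 0, 0, 0, 0, 0, 0, 0, 0, 0, 0, -8, 0, 0, 8],
    [0, 0, 0, 0, 0, 0, 0, 0, 0, 0, 0, 0, 0, 0, 0, 0, 0, 0, 0, 0, 0],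
    [0, 0, 0, 0, 0, 0, 0, 0, 0, 0, 0, 0, 0, 0, 0, 0, 0, 0, 0, 0, 0],
    [0, 0, 0, 0, 0, 0, 0, 0, 0, 0, 0, 0, 0, 0, 0, 0, 0, 4, 0, 0, -4],
    [0, 0, 0, 0, 0, 0, 0, 0, 0, 0, 0, 0, 0, 0, 0, 0, 0, 0, 0, 0, 0],
    [0, 0, 0, 0, 0, 0, 0, 0, 0, 0, 0, 0, 0, 0, 0, 0, 0, 0, 0, 0, 0],
    [0, 0, 0, 0, 0, 0, 0, 0, 0, 0, 0, 0, 0, 0, 0, 0, 0, 0, 0, 0, 0],
    [0, 0, 0, 0, 0, 0, 0, 0, 0, 0, 0, 0, 0, 0, 0, 0, 0, 0, 0, 0, 0],
    [0, 0, 0, 0, 0, 0, 0, 0, 0, 0, 0, 0, 0, 0, 0, 0, 0, 0, 0, 0, 0],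
    [0, 0, 0, 0, 0, 0, 0, 0, 0, 0, 0, 0, 0, 0, 0, 0, 0, 0, 0, 0, 0],
    [0, 0, 0, 0, 0, 0, 0, 0, 0, 0, 0, 0, 0, 0, 0, 0, 0, 4, 0, 0, -4],
    [0, 0, 0, 0, 0, 0, 0, 0, 0, 0, 0, 0, 0, 0, 0, 0, 0, 0, 0, 0, 0],
    [0, 0, 0, 0, 0, 0, 0, 0, 0, 0, 0, 0, 0, 0, 0, 0, 0, 0, 0, 0, 0],
    [0, 0, 0, 0, 0, 0, 0, 0, 0, 0, 0, 0, 0, 0, 0, 0, 0, 0, 0, 0, 0],
    [0, 0, 0, 0, 0, 0, 0, 0, 0, 0, 0, 0, 0, 0, 0, 0, 0, 0, 0, 0, 0],
    [0, 0, 0, 0, 0, 0, 0, 0, 0, 0, 0, 0, 0, 0, 0, 0, 0, 0, 0, 0, 0],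
    [0, 0, 0, 0, 0, 0, 0, 0, 0, 0, 0, 0, 0, 0, 0, 0, 0, 0, 0, 0, 0]]

theorem bzRow_sum (t : Idx → ℤ) (p : Idx) : ∑ r, Bz p r * t r = bzRow t p := by
  obtain ⟨a, b⟩ := p
  fin_cases a <;> fin_cases b <;>
    simp [Bz, bzRow, Fintype.sum_prod_type, Fin.sum_univ_succ, Pi.single_apply] <;> ring

theorem mul_apply' (M : Matrix Idx Idx ℤ) (p q : Idx) :
    (Bz * M) p q = bzRow (fun r => M r q) p := by
  rw [Matrix.mul_apply, bzRow_sum]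

theorem step (M : Matrix Idx Idx ℤ) (c : ℤ) (L : List (List ℤ))
    (h : ∀ p q, bzRow (fun r => M r q) p + (if p = q then c else 0) = ML L p q) :
    Bz * M + algebraMap ℤ (Matrix Idx Idx ℤ) c = ML L := by
  ext p q
  rw [Matrix.add_apply, mul_apply', Matrix.algebraMap_matrix_apply, ← h]
  simp

theorem step0 (M : Matrix Idx Idx ℤ) (L : List (List ℤ))
    (h : ∀ p q, bzRow (fun r => M r q) p = ML L p q) : Bz * M = ML L := by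
  ext p q
  rw [mul_apply', ← h]
theorem b1 : Bz = ML bp1 := by
  ext p q
  revert p q
  decide +kernel

theorem b2 : Bz * ML bp1 = ML bp2 := step0 _ _ (by decide +kernel)

theorem b3 : Bz * ML bp2 = ML bp3 := step0 _ _ (by decide +kernel)

theorem b4 : Bz * ML bp3 = ML bp4 := step0 _ _ (by decide +kernel)

theorem b5 : Bz * ML bp4 = ML bp5 := step0 _ _ (by decide +kernel)

theorem b6 : Bz * ML bp5 = ML bp6 := step0 _ _ (by decide +kernel)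

theorem b7 : Bz * ML bp6 = ML bp7 := step0 _ _ (by decide +kernel)

theorem b8 : Bz * ML bp7 = ML bp8 := step0 _ _ (by decide +kernel)

theorem b9 : Bz * ML bp8 = ML bp9 := step0 _ _ (by decide +kernel)

theorem b10 : Bz * ML bp9 = ML bp10 := step0 _ _ (by decide +kernel)

theorem h1 : Bz * 1 + algebraMap ℤ (Matrix Idx Idx ℤ) 6 = ML hp1 := step _ _ _ (by decide +kernel)

theorem h2 : Bz * ML hp1 + algebraMap ℤ (Matrix Idx Idx ℤ) 16 = ML hp2 :=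
  step _ _ _ (by decide +kernel)

theorem h3 : Bz * ML hp2 + algebraMap ℤ (Matrix Idx Idx ℤ) 30 = ML hp3 :=
  step _ _ _ (by decide +kernel)

theorem h4 : Bz * ML hp3 + algebraMap ℤ (Matrix Idx Idx ℤ) 24 = ML hp4 :=
  step _ _ _ (by decide +kernel)

theorem h5 : Bz * ML hp4 + algebraMap ℤ (Matrix Idx Idx ℤ) 8 = ML hp5 :=
  step _ _ _ (by decide +kernel)

theorem h6 : Bz * ML hp5 + algebraMap ℤ (Matrix Idx Idx ℤ) 20 = ML hp6 :=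
  step _ _ _ (by decide +kernel)

theorem h7 : Bz * ML hp6 + algebraMap ℤ (Matrix Idx Idx ℤ) (-56) = ML hp7 :=
  step _ _ _ (by decide +kernel)

theorem h8 : Bz * ML hp7 + algebraMap ℤ (Matrix Idx Idx ℤ) 8 = ML hp8 :=
  step _ _ _ (by decide +kernel)

theorem h9 : Bz * ML hp8 + algebraMap ℤ (Matrix Idx Idx ℤ) (-24) = ML hp9 :=
  step _ _ _ (by decide +kernel)

theorem h10 : Bz * ML hp9 + algebraMap ℤ (Matrix Idx Idx ℤ) (-32) = ML hp10 :=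
  step _ _ _ (by decide +kernel)

theorem h11 : Bz * ML hp10 + algebraMap ℤ (Matrix Idx Idx ℤ) (-8) = ML hp11 :=
  step _ _ _ (by decide +kernel)

theorem h12 : Bz * ML hp11 = ML hp12 := step0 _ _ (by decide +kernel)

theorem h13 : Bz * ML hp12 = ML hp13 := step0 _ _ (by decide +kernel)

theorem h14 : Bz * ML hp13 = 0 := by
  ext p q
  rw [mul_apply']
  revert p q
  decide +kernel

theorem pow10 : Bz ^ 10 = ML bp10 := by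
  have h : Bz ^ 10 = Bz * (Bz * (Bz * (Bz * (Bz * (Bz * (Bz * (Bz * (Bz * Bz)))))))) := by
    simp only [pow_succ', pow_zero, mul_one]
  rw [h]
  nth_rewrite 10 [b1]
  rw [b2, b3, b4, b5, b6, b7, b8, b9, b10]

theorem Bz_annih : Bz ^ 3 * Polynomial.aeval Bz chi0 = 0 := by
  have h : (Polynomial.X ^ 3 * chi0 : Polynomial ℤ) =
      Polynomial.X * (Polynomial.X * (Polynomial.X * (Polynomial.X * (Polynomial.X *
      (Polynomial.X * (Polynomial.X * (Polynomial.X * (Polynomial.X * (Polynomial.X *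
      (Polynomial.X * (Polynomial.X * (Polynomial.X * (Polynomial.X * 1 + Polynomial.C 6) +
      Polynomial.C 16) + Polynomial.C 30) + Polynomial.C 24) + Polynomial.C 8) +
      Polynomial.C 20) + Polynomial.C (-56)) + Polynomial.C 8) + Polynomial.C (-24)) +
      Polynomial.C (-32)) + Polynomial.C (-8)))) := by
    unfold chi0
    simp only [map_neg]
    ring
  have h0 : Bz ^ 3 * Polynomial.aeval Bz chi0 = Polynomial.aeval Bz (Polynomial.X ^ 3 * chi0) := by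
    simp only [map_mul, map_pow, Polynomial.aeval_X]
  rw [h0, h]
  simp only [map_mul, map_add, map_one, Polynomial.aeval_X, Polynomial.aeval_C]
  rw [h1, h2, h3, h4, h5, h6, h7, h8, h9, h10, h11, h12, h13, h14]

theorem Bz_even (p q : Idx) : 2 ∣ (Bz ^ 10) p q := by
  rw [pow10]
  revert p q
  decide +kernel

theorem Bz_trace : (Bz ^ 10).trace ≠ 0 := by
  rw [pow10]
  unfold Matrix.trace
  simp only [Matrix.diag_apply]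
  decide +kernel

end Pool.Agent.Helper32.CQ
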